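import Pool.Agent.Helper2.SV.GoalsC

/-!
# Packet SV-NW: a minimal claw-free counterexample has no 5-wheel
-/

set_option autoImplicit false

namespace Pool.Agent.Helper60.SV

open Pool.Agent.Helper2.SV

variable {V : Type}

lemma wheel_rot {G : SimpleGraph V} {u : V} {d : Fin 5 → V} (h : Wheel G u d) (r : Fin 5) :
    Wheel G u (fun i => d (i + r)) where
  spoke i := h.spoke _
  rim i := by
    have := h.rim (i + r)
    have e : i + r + 1 = i + 1 + r := by omega
    rw [e] at this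
    exact this
  non i := by
    have := h.non (i + r)
    have e : i + r + 2 = i + 2 + r := by omega
    rw [e] at this
    exact this
  inj := by
    intro i j hij
    have := h.inj hij
    omega

lemma V0_rot (G : SimpleGraph V) (u : V) (d : Fin 5 → V) (r : Fin 5) :
    V0 G u (fun i => d (i + r)) = V0 G u d := by
  apply Set.ext
  intro y
  constructor
  · rintro ⟨h1, h2⟩
    refine ⟨h1, fun i => ?_⟩
    have := h2 (i - r)
    have e : i - r + r = i := by omega
    simp only [e] at this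
    exact this
  · rintro ⟨h1, h2⟩
    exact ⟨h1, fun i => h2 (i + r)⟩

lemma V2_rot (G : SimpleGraph V) (u : V) (d : Fin 5 → V) (r i : Fin 5) :
    V2 G u (fun i => d (i + r)) i = V2 G u d (i + r) := by
  apply Set.ext
  intro y
  constructor
  · rintro ⟨h1, h2⟩
    refine ⟨h1, fun j => ?_⟩
    have := h2 (j - r)
    have e : j - r + r = j := by omega
    simp only [e] at this
    rw [this]
    omega
  · rintro ⟨h1, h2⟩
    refine ⟨h1, fun j => ?_⟩
    have := h2 (j + r)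
    show G.Adj y (d (j + r)) ↔ _
    rw [this]
    omega

lemma EE_rot (G : SimpleGraph V) (u : V) (d : Fin 5 → V) (r i : Fin 5) :
    EE G u (fun i => d (i + r)) i = EE G u d (i + r) := by
  unfold EE
  rw [V2_rot, V0_rot]

/-- The finite check over the nonempty subsets of `Fin 5`. -/
lemma fin_check (b0 b1 b2 b3 b4 : Bool)
    (h : ∃ i : Fin 5, (![b0, b1, b2, b3, b4] i) = true) :
    ∃ r : Fin 5,
      (∀ i : Fin 5, (![b0, b1, b2, b3, b4] (i + r)) = true ↔ i = 0) ∨
      (∀ i : Fin 5, (![b0, b1, b2, b3, b4] (i + r)) = true ↔ (i = 0 ∨ i = 1)) ∨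
      (∀ i : Fin 5, (![b0, b1, b2, b3, b4] (i + r)) = true ↔ (i = 0 ∨ i = 1 ∨ i = 2)) ∨
      (∀ i : Fin 5, (![b0, b1, b2, b3, b4] (i + r)) = true ↔ (i = 0 ∨ i = 1 ∨ i = 2 ∨ i = 3)) ∨
      (∀ i : Fin 5, (![b0, b1, b2, b3, b4] (i + r)) = true) ∨
      (∀ i : Fin 5, (![b0, b1, b2, b3, b4] (i + r)) = true ↔ (i = 0 ∨ i = 2)) ∨
      (∀ i : Fin 5, (![b0, b1, b2, b3, b4] (i + r)) = true ↔ (i = 0 ∨ i = 1 ∨ i = 3)) := by
  revert h
  cases b0 <;> cases b1 <;> cases b2 <;> cases b3 <;> cases b4 <;> decide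

lemma prop_check (P : Fin 5 → Prop) (h : ∃ i, P i) :
    ∃ r : Fin 5,
      (∀ i : Fin 5, P (i + r) ↔ i = 0) ∨
      (∀ i : Fin 5, P (i + r) ↔ (i = 0 ∨ i = 1)) ∨
      (∀ i : Fin 5, P (i + r) ↔ (i = 0 ∨ i = 1 ∨ i = 2)) ∨
      (∀ i : Fin 5, P (i + r) ↔ (i = 0 ∨ i = 1 ∨ i = 2 ∨ i = 3)) ∨
      (∀ i : Fin 5, P (i + r)) ∨
      (∀ i : Fin 5, P (i + r) ↔ (i = 0 ∨ i = 2)) ∨
      (∀ i : Fin 5, P (i + r) ↔ (i = 0 ∨ i = 1 ∨ i = 3)) := by
  classical
  have hb : ∀ i : Fin 5,
      ((![decide (P 0), decide (P 1), decide (P 2), decide (P 3), decide (P 4)] i) = true) ↔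
        P i := by
    intro i
    fin_cases i <;> simp
  have := fin_check (decide (P 0)) (decide (P 1)) (decide (P 2)) (decide (P 3)) (decide (P 4))
    (by obtain ⟨i, hi⟩ := h; exact ⟨i, (hb i).2 hi⟩)
  simpa only [hb] using this

theorem goalNW (hWFC : G_WFC) (hC6 : G_C6) (hCH : G_CH) (hI12 : G_I12) (hI34 : G_I34)
    (hICO : G_ICO) (hI02 : G_I02) (hI013 : G_I013) : G_NW := by
  intro V _ G w u d hcf hmf hwh
  have hwf := hWFC V G u d hcf hwh
  by_cases h0 : V0 G u d = ∅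
  · exact hC6 V G w u d hcf hmf hwh hwf h0
  have hne : (V0 G u d).Nonempty := Set.nonempty_iff_ne_empty.2 h0
  obtain ⟨hE, -⟩ := hCH V G w u d hcf hmf hwh hwf hne
  obtain ⟨r, hr⟩ := prop_check (fun i => (EE G u d i).Nonempty) hE
  have hwh' := wheel_rot hwh r
  have hwf' := hWFC V G u _ hcf hwh'
  have hne' : (V0 G u (fun i => d (i + r))).Nonempty := by rw [V0_rot]; exact hne
  have hEE : ∀ i, EE G u (fun i => d (i + r)) i = EE G u d (i + r) := fun i => EE_rot G u d r i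
  have h12 := hI12 V G w u _ hcf hmf hwh' hwf' hne'
  have h34 := hI34 V G w u _ hcf hmf hwh' hwf' hne'
  have hco := hICO V G w u _ hcf hmf hwh' hwf' hne'
  have h02 := hI02 V G w u _ hcf hmf hwh' hwf' hne'
  have h013 := hI013 V G w u _ hcf hmf hwh' hwf' hne'
  simp only [hEE] at h12 h34 hco h02 h013
  rcases hr with h | h | h | h | h | h | h
  · exact h12.1 h
  · exact h12.2 h
  · exact h34.1 h
  · exact h34.2 h
  · exact hco h
  · exact h02 h
  · exact h013 h

end Pool.Agent.Helper60.SV
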